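import Pool.Agent.Run7.h353.PJ.B11

/-!
# Post's problem and symmetric programs: two programs have an invariant solution, three are Q1

`TLe` (Turing reducibility of sets, given by their characteristic sequences, from Mathlib's
`TuringReducible`) is defined in `Pool/Agent/Helper227/Defs.lean`; `WE X e` (the `e`-th set
computably enumerable relative to `X`) and `jump X` (the Turing jump of `X`) are defined in
`Pool/Agent/Helper227/RD/Jump.lean`; `chr S` (the characteristic sequence of `S`) is defined in
`Pool/Agent/H548R2/Post/Main.lean`; `Red c X Y` (the program `c` reduces `Y` to `X`) is defined in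
`Pool/Agent/H639/LU/Defs.lean`. By the theorem `ClosedSets` of this folder `Y ≤_T X` holds if and
only if some program reduces `Y` to `X`.

A program `a` exchanges `X` and `Y` if it reduces `Y` to `X` and `X` to `Y`. The programs are
arbitrary, their reductions are partial.

1. For any two programs `i`, `j` there is an index `e` with `X <_T W_e^X <_T X'` and
`(W_e^X)' ≤_T X'` for all `X`, and with `W_e^X ≡_T W_e^Y` for all `X`, `Y` exchanged by `i` or `j`.

2. The same for all `X`, `Y` with `X ≡_T Y` via the pair `(i, j)`: `i` reduces `Y` to `X` and `j`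
reduces `X` to `Y`. (This follows from 1. for the programs which exchange `0 X` with `1 Y`, and
`0 X` with `1 X`.)

3. Three programs are as good as all: there are programs `a`, `b`, `c`, where `a` changes the first
digit and `b` the second digit, such that Turing equivalence is the equivalence relation
generated by the pairs exchanged by `a`, `b` or `c`. So for each `e` the invariance required in Q1 is
invariance for the pairs exchanged by these three programs.

4. Two programs never generate Turing equivalence in this way, not even on the computable sets.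

Proof of 1. Let `P` be the partial map which sends `0 X` to `1 Y` if `i` exchanges `X`, `Y`, and `1 X`
to `0 Y` if `j` exchanges `X`, `Y`. It is injective, and its orbits are finite or infinite paths, or
cycles. For each `c`, `X` there is a function `f^X : ω → {0, 1}` which is the limit of functions
`F(X ↾ s)`, is low over `X` uniformly, and avoids a given function c.e. in `X` with at most one
value (the low basis theorem). A number `x` codes a level `n`, a requirement `κ, e` with `e ≤ n`, a
length `ℓ`, the types of two ends, and a string. It is put into the sets `A(Z_0), …, A(Z_(ℓ-1))` of the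
members of a piece of an orbit, all at the same time, when it is in `W_e^(Z_κ)` and the values of
the approximations at the code of this piece have not changed since stage `x`. By the recursion
theorem the avoided function consists of these values; here the functions for `0 X` and `1 X` are two
parts of one function `f^X`, so that `X ⊕ A(0 X) ⊕ A(1 X)` is low over `X`. The pieces of level `n`
are bounded by the ends of the orbit and by markers: positions where the first `n` digits are a
local minimum, with radius `n + 1`, and where a smaller member of the orbit has been found. Each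
position is a marker of only finitely many levels, so that the sets of neighbours differ by a set
computable from the oracle; and each infinite direction of an orbit has markers of all levels, so
that the pieces are finite. The set for `X` is `X ⊕ A(0 X) ⊕ A(1 X)`.

Proof of 3. Let `(i, j)` be the pair of `FlipAndOnePair`; `c` exchanges `0 X` and `1 Y` if `X ≡_T Y` via
`(i, j)`. Proof of 4. The tails of the members of the orbit of `000…` under `P` are a uniformly
computable list.
-/

set_option autoImplicit false

namespace Pool.Agent.Results.MP_57825d_lc.TwoSymmetricPrograms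

open Nat.Partrec (Code)
open Pool.Agent.Helper227 Pool.Agent.H548R2.Post Pool.Agent.H639.LU

/-- The program `a` exchanges `X` and `Y`: it reduces `Y` to `X` and `X` to `Y`. -/
def Exch (a : Code) (X Y : ℕ → Bool) : Prop := Red a X Y ∧ Red a Y X

/-- `X <_T W_e^X <_T X'` and `(W_e^X)' ≤_T X'` for all `X`. -/
def LowSolution (e : ℕ) : Prop := ∀ X : ℕ → Bool,
  TLe X (chr (WE X e)) ∧ ¬ TLe (chr (WE X e)) X ∧
    TLe (chr (WE X e)) (jump X) ∧ ¬ TLe (jump X) (chr (WE X e)) ∧
    TLe (jump (chr (WE X e))) (jump X)

/-- `W_e^X ≡_T W_e^Y` -/
def SameDegree (e : ℕ) (X Y : ℕ → Bool) : Prop :=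
  TLe (chr (WE X e)) (chr (WE Y e)) ∧ TLe (chr (WE Y e)) (chr (WE X e))

theorem SameDegree.trans {e : ℕ} {X Y Z : ℕ → Bool} (h : SameDegree e X Y)
    (h' : SameDegree e Y Z) : SameDegree e X Z :=
  ⟨h.1.trans h'.1, h'.2.trans h.2⟩

theorem SameDegree.refl (e : ℕ) (X : ℕ → Bool) : SameDegree e X X :=
  ⟨TuringReducible.refl _, TuringReducible.refl _⟩

theorem result :
    -- 1. two symmetric programs
    (∀ i j : Code, ∃ e : ℕ, LowSolution e ∧
      ∀ X Y : ℕ → Bool, Exch i X Y ∨ Exch j X Y → SameDegree e X Y) ∧
    -- 2. one pair of programs
    (∀ i j : Code, ∃ e : ℕ, LowSolution e ∧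
      ∀ X Y : ℕ → Bool, Red i X Y → Red j Y X → SameDegree e X Y) ∧
    -- 3. three symmetric programs generate Turing equivalence
    (∃ a b c : Code,
      (∀ X Y : ℕ → Bool, Red a X Y ↔ ∀ n, Y n = if n = 0 then !(X 0) else X n) ∧
      (∀ X Y : ℕ → Bool, Red b X Y ↔ ∀ n, Y n = if n = 1 then !(X 1) else X n) ∧
      (∀ X Y : ℕ → Bool, (TLe X Y ∧ TLe Y X) ↔
        Relation.EqvGen (fun X Y => Exch a X Y ∨ Exch b X Y ∨ Exch c X Y) X Y) ∧
      ∀ e : ℕ, (∀ X Y : ℕ → Bool, TLe X Y → TLe Y X → SameDegree e X Y) ↔
        ∀ X Y : ℕ → Bool, Exch a X Y ∨ Exch b X Y ∨ Exch c X Y → SameDegree e X Y) ∧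
    -- 4. two symmetric programs do not
    ∀ i j : Code, ∃ X Y : ℕ → Bool, Computable X ∧ Computable Y ∧
      ¬ Relation.EqvGen (fun X Y => Exch i X Y ∨ Exch j X Y) X Y := by
  refine ⟨Pool.Agent.Run7.h353.PJ.main, Pool.Agent.Run7.h353.PI.main, ?_,
    Pool.Agent.Run7.h353.PJ.two_not⟩
  obtain ⟨a, b, c, ha, hb, h⟩ := Pool.Agent.Run7.h353.PJ.three
  refine ⟨a, b, c, ha, hb, h, fun e => ⟨fun h1 X Y h2 => ?_, fun h1 X Y h2 h3 => ?_⟩⟩
  · have h3 := (h X Y).2 (Relation.EqvGen.rel _ _ h2)
    exact h1 X Y h3.1 h3.2
  · have h4 := (h X Y).1 ⟨h2, h3⟩
    clear h2 h3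
    induction h4 with
    | rel X Y h => exact h1 X Y h
    | refl X => exact SameDegree.refl e X
    | symm X Y _ ih => exact ⟨ih.2, ih.1⟩
    | trans X Y Z _ _ ih1 ih2 => exact ih1.trans ih2

end Pool.Agent.Results.MP_57825d_lc.TwoSymmetricPrograms
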